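import Pool.Agent.Helper36.PT.Defs
import Pool.Agent.Helper28.PT.E3

/-!
# Polynomial time functions: lists
-/

set_option autoImplicit false

namespace Pool.Agent.Helper36.PT

open Finset

set_option linter.unusedSectionVars false

variable {α β γ : Type} [Enc α] [Enc β] [Enc γ]

theorem F1.fold_iter {σ : Type} (h : σ → β → σ) (d : β) (l : List β) (g : σ) (i : ℕ) :
    (fun s : List β × σ => if s.1.isEmpty = true then s else (s.1.tail, h s.2 (s.1.headD d)))^[i]
      (l, g) = (l.drop i, (l.take i).foldl h g) := by
  induction i with
  | zero => simp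
  | succ i ih =>
    rw [Function.iterate_succ_apply', ih]
    by_cases hi : l.length ≤ i
    · have h1 : l.drop i = [] := List.drop_eq_nil_of_le hi
      have h2 : l.drop (i + 1) = [] := List.drop_eq_nil_of_le (by omega)
      rw [h1, h2, List.take_of_length_le hi, List.take_of_length_le (by omega)]
      simp
    · push Not at hi
      have h1 : l.drop i = l[i] :: l.drop (i + 1) := List.drop_eq_getElem_cons hi
      have h2 : l.take (i + 1) = l.take i ++ [l[i]] := by
        rw [List.take_append_getElem hi]
      simp only [h1, h2, List.isEmpty_cons, List.tail_cons, List.headD_cons, List.foldl_append,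
        List.foldl_cons, List.foldl_nil]
      rfl

theorem F1.esz_drop_le (l : List β) (i : ℕ) : esz (l.drop i) ≤ esz l := by
  conv_rhs => rw [← List.take_append_drop i l, esz_append]
  omega

theorem F1.esz_take_le (l : List β) (i : ℕ) : esz (l.take i) ≤ esz l := by
  conv_rhs => rw [← List.take_append_drop i l, esz_append]
  omega

theorem PolyTime.foldl {σ : Type} [Enc σ] {l : α → List β} {g : α → σ} {h : α → σ → β → σ}
    (hl : PolyTime l)
    (hg : PolyTime g) (hh : PolyTime (fun p : (α × σ) × β => h p.1.1 p.1.2 p.2))
    (hb : ∃ B : α → ℕ, Bdd B ∧ ∀ a i, esz (((l a).take i).foldl (h a) (g a)) ≤ B a) :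
    PolyTime (fun a => (l a).foldl (h a) (g a)) := by
  obtain ⟨B, hB, hBle⟩ := hb
  rcases isEmpty_or_nonempty β with hβ | ⟨⟨d⟩⟩
  · refine hg.congr fun a => ?_
    have : l a = [] := by
      cases hla : l a with
      | nil => rfl
      | cons x _ => exact hβ.elim x
    rw [this]
    rfl
  · have h1 : PolyTime (fun p : α × (List β × σ) => p.2.1) := PolyTime.fst.comp PolyTime.snd
    have h2 : PolyTime (fun p : α × (List β × σ) => p.2.2) := PolyTime.snd.comp PolyTime.snd
    have h3 : PolyTime (fun p : α × (List β × σ) => p.1) := PolyTime.fst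
    have h4 : PolyTime (fun p : α × (List β × σ) => h p.1 p.2.2 (p.2.1.headD d)) :=
      hh.comp ((h3.pair h2).pair ((PolyTime.headD d).comp h1))
    have h5 : PolyTime (fun p : α × (List β × σ) =>
        if p.2.1.isEmpty = true then p.2 else (p.2.1.tail, h p.1 p.2.2 (p.2.1.headD d))) :=
      PolyTime.cond (PolyTime.isNil.comp h1) PolyTime.snd ((PolyTime.tail.comp h1).pair h4)
    have h6 := PolyTime.iterate (PolyTime.size.comp hl) (hl.pair hg) h5
      ⟨fun a => 2 * esz (l a) + 1 + B a,
        (((Bdd.const 2).mul hl.bdd).add (Bdd.const 1)).add hB, ?_⟩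
    · refine (PolyTime.snd.comp h6).congr fun a => ?_
      have := F1.fold_iter (h a) d (l a) (g a) (esz (l a))
      simp only at this ⊢
      rw [this]
      show ((l a).take (esz (l a))).foldl (h a) (g a) = _
      rw [List.take_of_length_le (length_le_esz _)]
    · intro a i _
      have := F1.fold_iter (h a) d (l a) (g a) i
      simp only at this ⊢
      rw [this, esz_pair]
      have h7 := F1.esz_drop_le (l a) i
      have h8 := hBle a i
      omega

/-! ### PT-F1: lists -/

theorem F1.esz_foldl_cons (l : List β) (g : List β) (i : ℕ) :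
    esz ((l.take i).foldl (fun s x => x :: s) g) ≤ esz l + esz g := by
  have : (l.take i).foldl (fun s x => x :: s) g = (l.take i).reverse ++ g := by
    rw [List.foldl_flip_cons_eq_append']
  rw [this, esz_append]
  have h1 : ∀ m : List β, esz m.reverse = esz m := by
    intro m
    rw [esz_list, esz_list, List.map_reverse, List.sum_reverse]
  rw [h1]
  have := F1.esz_take_le l i
  omega

theorem PolyTime.revAppend {f g : α → List β} (hf : PolyTime f) (hg : PolyTime g) :
    PolyTime (fun a => (f a).reverse ++ g a) := by
  have h1 : PolyTime (fun p : (α × List β) × β => p.2 :: p.1.2) :=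
    PolyTime.cons.comp (PolyTime.snd.pair (PolyTime.snd.comp PolyTime.fst))
  refine (PolyTime.foldl (h := fun _ s x => x :: s) hf hg h1
    ⟨fun a => esz (f a) + esz (g a), hf.bdd.add hg.bdd,
      fun a i => F1.esz_foldl_cons _ _ _⟩).congr fun a => ?_
  rw [List.foldl_flip_cons_eq_append']

theorem PolyTime.reverse {f : α → List β} (hf : PolyTime f) :
    PolyTime (fun a => (f a).reverse) :=
  (hf.revAppend (PolyTime.const [])).congr fun a => by rw [List.append_nil]

theorem PolyTime.append {f g : α → List β} (hf : PolyTime f) (hg : PolyTime g) :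
    PolyTime (fun a => f a ++ g a) :=
  (hf.reverse.revAppend hg).congr fun a => by rw [List.reverse_reverse]

theorem PolyTime.length {f : α → List β} (hf : PolyTime f) :
    PolyTime (fun a => (f a).length) := by
  have h1 : PolyTime (fun p : (α × ℕ) × β => Nat.succ p.1.2) :=
    PolyTime.succ.comp (PolyTime.snd.comp PolyTime.fst)
  have h2 : ∀ (l : List β) (n : ℕ), l.foldl (fun s _ => Nat.succ s) n = l.length + n := by
    intro l
    induction l with
    | nil => intro n; simp
    | cons x l ih =>
      intro n
      rw [List.foldl_cons, ih, List.length_cons]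
      omega
  refine (PolyTime.foldl (h := fun _ s _ => Nat.succ s) hf (PolyTime.const 0) h1
    ⟨fun a => esz (f a), hf.bdd, fun a i => ?_⟩).congr fun a => ?_
  · rw [h2, esz_nat, add_zero]
    exact (length_le_esz _).trans (F1.esz_take_le _ _)
  · rw [h2, add_zero]

theorem PolyTime.drop {f : α → List β} {i : α → ℕ} (hf : PolyTime f) (hi : PolyTime i) :
    PolyTime (fun a => (f a).drop (i a)) := by
  have h1 : PolyTime (fun p : α × List β => p.2.tail) := PolyTime.tail.comp PolyTime.snd
  have h2 : ∀ (l : List β) (n : ℕ), (fun s : List β => s.tail)^[n] l = l.drop n := by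
    intro l n
    induction n with
    | zero => simp
    | succ n ih =>
      rw [Function.iterate_succ_apply', ih, List.tail_drop]
  refine (PolyTime.iterate hi hf h1 ⟨fun a => esz (f a), hf.bdd, fun a n _ => ?_⟩).congr
    fun a => ?_
  · show esz ((fun s : List β => s.tail)^[n] (f a)) ≤ _
    rw [h2]
    exact F1.esz_drop_le _ _
  · exact h2 _ _

theorem PolyTime.take {f : α → List β} {i : α → ℕ} (hf : PolyTime f) (hi : PolyTime i) :
    PolyTime (fun a => (f a).take (i a)) := by
  refine ((hf.reverse.drop (hf.length.sub hi)).reverse).congr fun a => ?_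
  rw [List.drop_reverse, List.reverse_reverse]
  by_cases h : i a ≤ (f a).length
  · congr 1
    omega
  · have h1 : (f a).length - ((f a).length - i a) = (f a).length := by omega
    rw [h1, List.take_of_length_le le_rfl, List.take_of_length_le (by omega)]

theorem PolyTime.getD {f : α → List β} {i : α → ℕ} (hf : PolyTime f) (hi : PolyTime i) (d : β) :
    PolyTime (fun a => (f a).getD (i a) d) := by
  refine ((PolyTime.headD d).comp (hf.drop hi)).congr fun a => ?_
  rw [List.headD_eq_head?_getD, List.head?_drop, List.getD_eq_getElem?_getD]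

end Pool.Agent.Helper36.PT
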