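import Pool.Agent.Helper31.PT.F1

/-!
# Polynomial time functions: lists, second part
-/

set_option autoImplicit false

namespace Pool.Agent.Helper36.PT

open Finset

variable {α β γ : Type} [Enc α] [Enc β] [Enc γ]

/-- a bound for the values of a binary function with small second argument -/
theorem F2.bdd_uniform {f : α → β → γ} (hf : PolyTime (fun p : α × β => f p.1 p.2))
    {N : α → ℕ} (hN : Bdd N) :
    ∃ B : α → ℕ, Bdd B ∧ ∀ a b, esz b ≤ N a → esz (f a b) ≤ B a := by
  obtain ⟨d, hd⟩ := hf.bdd
  refine ⟨fun a => (2 * esz a + 1 + N a + 2) ^ d, ?_, fun a b hb => ?_⟩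
  · exact (((((Bdd.const 2).mul Bdd.size).add (Bdd.const 1)).add hN).add (Bdd.const 2)).pow d
  · refine (hd (a, b)).trans ?_
    rw [esz_pair]
    exact Nat.pow_le_pow_left (by omega) d

/-- the list `f a 0, ..., f a (n a - 1)` -/
theorem PolyTime.ofFn {n : α → ℕ} {f : α → ℕ → β} (hn : PolyTime n)
    (hf : PolyTime (fun p : α × ℕ => f p.1 p.2)) :
    PolyTime (fun a => (List.range (n a)).map (f a)) := by
  obtain ⟨B, hB, hBle⟩ := F2.bdd_uniform hf hn.bdd
  have h1 : PolyTime (fun p : (α × ℕ) × List β => f p.1.1 p.1.2 :: p.2) :=
    PolyTime.cons.comp ((hf.comp PolyTime.fst).pair PolyTime.snd)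
  have h2 : ∀ a i, PT.recN ([] : List β) (fun i s => f a i :: s) i =
      ((List.range i).map (f a)).reverse := by
    intro a i
    induction i with
    | zero => rfl
    | succ i ih =>
      show f a i :: PT.recN ([] : List β) (fun i s => f a i :: s) i = _
      rw [ih, List.range_succ, List.map_append, List.reverse_append]
      rfl
  refine ((PolyTime.recN (h := fun a i s => f a i :: s) hn (PolyTime.const ([] : List β)) h1
    ⟨fun a => n a * (2 * B a + 1), ?_, fun a i hi => ?_⟩).reverse).congr fun a => ?_
  · have : Bdd n := hn.bdd.mono fun a => le_of_eq (esz_nat _).symm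
    exact this.mul (((Bdd.const 2).mul hB).add (Bdd.const 1))
  · show esz (PT.recN ([] : List β) (fun i s => f a i :: s) i) ≤ _
    rw [h2]
    refine (esz_list_le (B := B a) ?_).trans ?_
    · intro x hx
      rw [List.mem_reverse, List.mem_map] at hx
      obtain ⟨j, hj, rfl⟩ := hx
      apply hBle
      rw [List.mem_range] at hj
      rw [esz_nat, esz_nat]
      omega
    · rw [List.length_reverse, List.length_map, List.length_range]
      exact Nat.mul_le_mul_right _ hi
  · show (PT.recN ([] : List β) (fun i s => f a i :: s) (n a)).reverse = _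
    rw [h2, List.reverse_reverse]

theorem F2.esz_reverse (m : List β) : esz m.reverse = esz m := by
  rw [esz_list, esz_list, List.map_reverse, List.sum_reverse]

theorem F2.esz_take_le_bound (l : List β) {B : ℕ} (i : ℕ) (h : ∀ x ∈ l, esz x ≤ B) :
    esz (l.take i) ≤ l.length * (2 * B + 1) :=
  (F1.esz_take_le l i).trans (esz_list_le h)

theorem PolyTime.map {l : α → List β} {f : α → β → γ} (hl : PolyTime l)
    (hf : PolyTime (fun p : α × β => f p.1 p.2)) : PolyTime (fun a => (l a).map (f a)) := by
  obtain ⟨B, hB, hBle⟩ := F2.bdd_uniform hf hl.bdd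
  have h1 : PolyTime (fun p : (α × List γ) × β => f p.1.1 p.2 :: p.1.2) :=
    PolyTime.cons.comp ((hf.comp ((PolyTime.fst.comp PolyTime.fst).pair PolyTime.snd)).pair
      (PolyTime.snd.comp PolyTime.fst))
  have h2 : ∀ (a : α) (m : List β) (s : List γ), m.foldl (fun s x => f a x :: s) s =
      (m.map (f a)).reverse ++ s := by
    intro a m
    induction m with
    | nil => intro s; rfl
    | cons x m ih =>
      intro s
      rw [List.foldl_cons, ih, List.map_cons, List.reverse_cons, List.append_assoc]
      rfl
  refine ((PolyTime.foldl (h := fun a s x => f a x :: s) hl (PolyTime.const ([] : List γ)) h1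
    ⟨fun a => esz (l a) * (2 * B a + 1), ?_, fun a i => ?_⟩).reverse).congr fun a => ?_
  · exact hl.bdd.mul (((Bdd.const 2).mul hB).add (Bdd.const 1))
  · show esz (((l a).take i).foldl (fun s x => f a x :: s) []) ≤ _
    rw [h2, List.append_nil, F2.esz_reverse, List.map_take]
    refine (F2.esz_take_le_bound _ (B := B a) i ?_).trans ?_
    · intro x hx
      rw [List.mem_map] at hx
      obtain ⟨y, hy, rfl⟩ := hx
      exact hBle a y (esz_mem_le hy)
    · rw [List.length_map]
      exact Nat.mul_le_mul_right _ (length_le_esz _)
  · show ((l a).foldl (fun s x => f a x :: s) []).reverse = _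
    rw [h2, List.append_nil, List.reverse_reverse]

theorem PolyTime.set {f : α → List β} {i : α → ℕ} {v : α → β} (hf : PolyTime f)
    (hi : PolyTime i) (hv : PolyTime v) : PolyTime (fun a => (f a).set (i a) (v a)) := by
  have h1 : PolyTime (fun a => (f a).take (i a) ++ v a :: (f a).drop (i a + 1)) :=
    (hf.take hi).append (PolyTime.cons.comp (hv.pair (hf.drop (PolyTime.succ.comp hi))))
  refine (PolyTime.ite (PolyPred.lt hi hf.length) h1 hf).congr fun a => ?_
  rw [List.set_eq_take_append_cons_drop]

theorem PolyTime.flatten {f : α → List (List β)} (hf : PolyTime f) :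
    PolyTime (fun a => (f a).flatten) := by
  have h1 : PolyTime (fun p : (α × List β) × List β => p.1.2 ++ p.2) :=
    (PolyTime.snd.comp PolyTime.fst).append PolyTime.snd
  have h2 : ∀ (m : List (List β)) (s : List β), m.foldl (fun s x => s ++ x) s =
      s ++ m.flatten := by
    intro m
    induction m with
    | nil => intro s; simp
    | cons x m ih =>
      intro s
      rw [List.foldl_cons, ih, List.flatten_cons, List.append_assoc]
  have h3 : ∀ m : List (List β), esz m.flatten ≤ esz m := by
    intro m
    induction m with
    | nil => exact le_rfl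
    | cons x m ih =>
      rw [List.flatten_cons, esz_append, esz_cons]
      omega
  refine (PolyTime.foldl (h := fun _ s x => s ++ x) hf (PolyTime.const ([] : List β)) h1
    ⟨fun a => esz (f a), hf.bdd, fun a i => ?_⟩).congr fun a => ?_
  · show esz (((f a).take i).foldl (fun s x => s ++ x) []) ≤ _
    rw [h2, List.nil_append]
    exact (h3 _).trans (F1.esz_take_le _ _)
  · show (f a).foldl (fun s x => s ++ x) [] = _
    rw [h2, List.nil_append]

theorem PolyTime.filter {l : α → List β} {c : α → β → Bool} (hl : PolyTime l)
    (hc : PolyTime (fun p : α × β => c p.1 p.2)) : PolyTime (fun a => (l a).filter (c a)) := by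
  have h0 : PolyTime (fun p : (α × List β) × β => c p.1.1 p.2) :=
    hc.comp ((PolyTime.fst.comp PolyTime.fst).pair PolyTime.snd)
  have h1 : PolyTime (fun p : (α × List β) × β =>
      if c p.1.1 p.2 = true then p.2 :: p.1.2 else p.1.2) :=
    PolyTime.cond h0 (PolyTime.cons.comp (PolyTime.snd.pair (PolyTime.snd.comp PolyTime.fst)))
      (PolyTime.snd.comp PolyTime.fst)
  have h2 : ∀ (a : α) (m : List β) (s : List β),
      m.foldl (fun s x => if c a x = true then x :: s else s) s =
      (m.filter (c a)).reverse ++ s := by
    intro a m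
    induction m with
    | nil => intro s; rfl
    | cons x m ih =>
      intro s
      rw [List.foldl_cons, ih, List.filter_cons]
      by_cases hx : c a x = true
      · rw [if_pos hx, if_pos hx, List.reverse_cons, List.append_assoc]
        rfl
      · rw [if_neg hx, if_neg hx]
  have h3 : ∀ (a : α) (m : List β), esz (m.filter (c a)) ≤ esz m := by
    intro a m
    induction m with
    | nil => exact le_rfl
    | cons x m ih =>
      rw [List.filter_cons]
      by_cases hx : c a x = true
      · rw [if_pos hx, esz_cons, esz_cons]
        omega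
      · rw [if_neg hx, esz_cons]
        omega
  refine ((PolyTime.foldl (h := fun a s x => if c a x = true then x :: s else s) hl
    (PolyTime.const ([] : List β)) h1
    ⟨fun a => esz (l a), hl.bdd, fun a i => ?_⟩).reverse).congr fun a => ?_
  · show esz (((l a).take i).foldl (fun s x => if c a x = true then x :: s else s) []) ≤ _
    rw [h2, List.append_nil, F2.esz_reverse]
    exact (h3 a _).trans (F1.esz_take_le _ _)
  · show ((l a).foldl (fun s x => if c a x = true then x :: s else s) []).reverse = _
    rw [h2, List.append_nil, List.reverse_reverse]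

end Pool.Agent.Helper36.PT
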